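import Pool.Agent.H93.ES.Targets
import Pool.Agent.H28.NW.Targets

/-!
# BLL: lower bound of a logarithmic sum by the means over the blocks
-/

set_option autoImplicit false

namespace Pool.Agent.H49.NW

open Pool.Agent.H28.NW
open Finset Pool.Agent.H93.ES

theorem pf_BLL : W_BLL := by
  intro X N F hN hF
  have hN0 : (0 : ℝ) < N := by exact_mod_cast hN
  unfold wlg
  -- termwise comparison
  have h1 : ∀ i ∈ Icc (X.lo / N + 1) (X.hi / N - 1), 1 / (i : ℝ) * ((∑ k ∈ range N, F (i * N + k)) / N) ≤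
      ∑ k ∈ range N, 2 * (F (i * N + k) / ((i * N + k : ℕ) : ℝ)) := by
    intro i hi
    have hi1 : 1 ≤ i := (Nat.le_add_left 1 _).trans (mem_Icc.1 hi).1
    have hi0 : (0 : ℝ) < i := by exact_mod_cast hi1
    have e : 1 / (i : ℝ) * ((∑ k ∈ range N, F (i * N + k)) / N) =
        ∑ k ∈ range N, F (i * N + k) / (i * N) := by
      rw [Finset.sum_div, Finset.mul_sum]
      refine Finset.sum_congr rfl fun k _ => ?_
      field_simp
    rw [e]
    refine Finset.sum_le_sum fun k hk => ?_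
    have hk' : k < N := mem_range.1 hk
    have hkN : (k : ℝ) ≤ i * N := by
      have : k ≤ i * N := le_trans hk'.le (Nat.le_mul_of_pos_left N hi1)
      exact_mod_cast this
    have hk0 : (0 : ℝ) ≤ k := Nat.cast_nonneg k
    have hp : (0 : ℝ) < i * N := mul_pos hi0 hN0
    push_cast
    rw [← mul_div_assoc, div_le_div_iff₀ hp (by linarith)]
    nlinarith [hF (i * N + k)]
  refine (Finset.sum_le_sum h1).trans ?_
  have h2 : ∑ i ∈ Icc (X.lo / N + 1) (X.hi / N - 1), ∑ k ∈ range N, 2 * (F (i * N + k) / ((i * N + k : ℕ) : ℝ)) =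
      2 * ∑ p ∈ Icc (X.lo / N + 1) (X.hi / N - 1) ×ˢ range N,
        (fun n : ℕ => F n / (n : ℝ)) (p.1 * N + p.2) := by
    rw [Finset.sum_product, Finset.mul_sum]
    refine Finset.sum_congr rfl fun i _ => ?_
    rw [Finset.mul_sum]
  rw [h2]
  refine mul_le_mul_of_nonneg_left ?_ (by norm_num)
  have hinj : Set.InjOn (fun p : ℕ × ℕ => p.1 * N + p.2)
      (Icc (X.lo / N + 1) (X.hi / N - 1) ×ˢ range N : Finset (ℕ × ℕ)) := by
    rintro ⟨i, k⟩ h ⟨i', k'⟩ h' e
    simp only [coe_product, Set.mem_prod, mem_coe, mem_Icc, mem_range] at h h'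
    simp only at e
    have hk := h.2
    have hk' := h'.2
    have a1 : (i * N + k) / N = i := by
      rw [mul_comm, Nat.mul_add_div hN, Nat.div_eq_of_lt hk, add_zero]
    have a2 : (i' * N + k') / N = i' := by
      rw [mul_comm, Nat.mul_add_div hN, Nat.div_eq_of_lt hk', add_zero]
    have hii : i = i' := by rw [← a1, ← a2, e]
    subst hii
    have : k = k' := by omega
    rw [this]
  rw [← Finset.sum_image (f := fun n : ℕ => F n / (n : ℝ)) hinj]
  refine Finset.sum_le_sum_of_subset_of_nonneg ?_ fun n _ _ =>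
    div_nonneg (hF n) (Nat.cast_nonneg n)
  intro n hn
  obtain ⟨⟨i, k⟩, hp, rfl⟩ := mem_image.1 hn
  simp only [mem_product, mem_Icc, mem_range] at hp
  obtain ⟨⟨h3, h4⟩, h5⟩ := hp
  refine mem_Icc.2 ⟨?_, ?_⟩
  · have h6 : X.lo < i * N := (Nat.div_lt_iff_lt_mul hN).1 (by omega)
    simp only
    omega
  · have h8 : 1 ≤ i := (Nat.le_add_left 1 _).trans h3
    have h6 : i + 1 ≤ X.hi / N := by omega
    have h7 : (i + 1) * N ≤ X.hi := (Nat.le_div_iff_mul_le hN).1 h6
    simp only
    nlinarith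

end Pool.Agent.H49.NW
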